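import Pool.Agent.CpImages.Delta

/-!
# Continuous functions on `C_p(K)`: finite conditions and countable dependence
-/

set_option autoImplicit false

open Topology

namespace Pool.Agent.CpImages

variable {K : Type} [TopologicalSpace K] [CompactSpace K] [T2Space K]

/-- The space `C_p(K)`: continuous real functions on `K` with the topology of pointwise
convergence. -/
abbrev Cp (K : Type) [TopologicalSpace K] : Type := {g : K → ℝ // Continuous g}

/-- interpolation on finite sets -/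
theorem exists_interp (S : Finset K) (c : K → ℝ) : ∃ g : Cp K, ∀ s ∈ S, g.1 s = c s := by
  have hcl : IsClosed (↑S : Set K) := S.finite_toSet.isClosed
  obtain ⟨g, hg⟩ := ContinuousMap.exists_restrict_eq hcl
    (⟨fun s : (↑S : Set K) => c s, continuous_of_discreteTopology⟩ : C((↑S : Set K), ℝ))
  refine ⟨⟨g, g.continuous⟩, ?_⟩
  intro s hs
  exact DFunLike.congr_fun hg ⟨s, hs⟩

theorem exists_pos_le {α : Type*} (I : Finset α) (e : α → ℝ) (he : ∀ a, 0 < e a) :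
    ∃ ε : ℝ, 0 < ε ∧ ∀ a ∈ I, ε ≤ e a := by
  classical
  induction I using Finset.induction_on with
  | empty => exact ⟨1, one_pos, by simp⟩
  | insert a I _ ih =>
    obtain ⟨ε, hε, h⟩ := ih
    exact ⟨min ε (e a), lt_min hε (he a), by
      intro b hb
      rcases Finset.mem_insert.mp hb with rfl | hb
      · exact min_le_right _ _
      · exact (min_le_left _ _).trans (h b hb)⟩

omit [CompactSpace K] [T2Space K] in
/-- basic neighbourhoods in `C_p(K)` -/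
theorem exists_cond {Z : Type} [TopologicalSpace Z] (ψ : Cp K → Z) (hψ : Continuous ψ)
    (U : Set Z) (hU : IsOpen U) (g : Cp K) (hg : ψ g ∈ U) :
    ∃ S : Finset K, ∃ ε : ℝ, 0 < ε ∧ ∀ h : Cp K, (∀ s ∈ S, |h.1 s - g.1 s| < ε) → ψ h ∈ U := by
  obtain ⟨V, hV, hVU⟩ := isOpen_induced_iff.mp (hU.preimage hψ)
  have hgV : g.1 ∈ V := by
    have : g ∈ Subtype.val ⁻¹' V := by rw [hVU]; exact hg
    exact this
  obtain ⟨I, u, hu, hIu⟩ := isOpen_pi_iff.mp hV g.1 hgV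
  have h1 : ∀ a : K, ∃ ε : ℝ, 0 < ε ∧ (a ∈ I → Metric.ball (g.1 a) ε ⊆ u a) := by
    intro a
    by_cases ha : a ∈ I
    · obtain ⟨ε, hε, hb⟩ := Metric.isOpen_iff.mp (hu a ha).1 _ (hu a ha).2
      exact ⟨ε, hε, fun _ => hb⟩
    · exact ⟨1, one_pos, fun h => absurd h ha⟩
  choose e he hball using h1
  obtain ⟨ε, hε, hεe⟩ := exists_pos_le I e he
  refine ⟨I, ε, hε, ?_⟩
  intro h hh
  have : h.1 ∈ V := by
    apply hIu
    intro a ha
    apply hball a ha
    rw [Metric.mem_ball, Real.dist_eq]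
    exact (hh a ha).trans_le (hεe a ha)
  have h2 : h ∈ Subtype.val ⁻¹' V := this
  rw [hVU] at h2
  exact h2

/-- `ψ` is continuous for the topology of pointwise convergence on `A`. -/
def DependsOn (A : Set K) (ψ : Cp K → ℝ) : Prop :=
  ∀ g : Cp K, ∀ η : ℝ, 0 < η → ∃ S : Finset K, (↑S : Set K) ⊆ A ∧ ∃ ε : ℝ, 0 < ε ∧
    ∀ h : Cp K, (∀ s ∈ S, |h.1 s - g.1 s| < ε) → |ψ h - ψ g| < η

omit [CompactSpace K] [T2Space K] in
theorem DependsOn.mono {A B : Set K} (h : A ⊆ B) {ψ : Cp K → ℝ} (hψ : DependsOn A ψ) :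
    DependsOn B ψ := by
  intro g η hη
  obtain ⟨S, hS, ε, hε, H⟩ := hψ g η hη
  exact ⟨S, hS.trans h, ε, hε, H⟩

/-- Two finite conditions deciding `ψ < r` and `ψ > r'`. -/
structure Dat (Φ : Set (Cp K → ℝ)) where
  /-- the function -/
  ψ : Cp K → ℝ
  mem : ψ ∈ Φ
  /-- lower value -/
  r : ℚ
  /-- upper value -/
  r' : ℚ
  lt : r < r'
  /-- the centre of the lower condition -/
  gm : Cp K
  /-- the centre of the upper condition -/
  gp : Cp K
  /-- the support -/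
  S : Finset K
  /-- the radius -/
  ε : ℝ
  pos : 0 < ε
  low : ∀ h : Cp K, (∀ s ∈ S, |h.1 s - gm.1 s| < ε) → ψ h < r
  high : ∀ h : Cp K, (∀ s ∈ S, |h.1 s - gp.1 s| < ε) → (r' : ℝ) < ψ h

omit [CompactSpace K] [T2Space K] in
/-- the two conditions are incompatible -/
theorem Dat.exists_ne {Φ : Set (Cp K → ℝ)} (d : Dat Φ) : ∃ s ∈ d.S, d.gm.1 s ≠ d.gp.1 s := by
  by_contra h
  push Not at h
  have h1 := d.low d.gm (fun s _ => by simp [d.pos])
  have h2 := d.high d.gm (fun s hs => by rw [h s hs]; simp [d.pos])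
  have h3 : (d.r : ℝ) < d.r' := by exact_mod_cast d.lt
  linarith

theorem exists_dat (Φ : Set (Cp K → ℝ)) (ψ : Cp K → ℝ) (hΦ : ψ ∈ Φ) (hψ : Continuous ψ)
    (A : Set K) (hA : ¬ DependsOn A ψ) :
    ∃ d : Dat Φ, ∀ s ∈ d.S, s ∈ A → d.gm.1 s = d.gp.1 s := by
  classical
  unfold DependsOn at hA
  push Not at hA
  obtain ⟨g, η, hη, hA⟩ := hA
  obtain ⟨a₁, h1, h2⟩ := exists_rat_btwn (show ψ g < ψ g + η by linarith)
  obtain ⟨a₂, h3, h4⟩ := exists_rat_btwn h2
  obtain ⟨b₂, h5, h6⟩ := exists_rat_btwn (show ψ g - η < ψ g by linarith)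
  obtain ⟨b₁, h7, h8⟩ := exists_rat_btwn h5
  obtain ⟨S₁, ε₁, hε₁, H₁⟩ := exists_cond ψ hψ (Set.Ioo (b₂ : ℝ) a₁) isOpen_Ioo g ⟨h6, h1⟩
  obtain ⟨h, hh, hbig⟩ := hA (S₁.filter (· ∈ A)) (by
    intro s hs
    exact (Finset.mem_filter.mp hs).2) (ε₁ / 2) (by positivity)
  have key : ∀ S₂ : Finset K, ∃ g' : Cp K, (∀ s ∈ S₁ ∪ S₂, s ∈ A → g'.1 s = h.1 s) ∧
      ∀ h' : Cp K, (∀ s ∈ S₁ ∪ S₂, |h'.1 s - g'.1 s| < ε₁ / 2) →
        ψ h' ∈ Set.Ioo (b₂ : ℝ) a₁ := by
    intro S₂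
    obtain ⟨g', hg'⟩ := exists_interp (S₁ ∪ S₂) (fun s => if s ∈ A then h.1 s else g.1 s)
    refine ⟨g', ?_, ?_⟩
    · intro s hs hsA
      rw [hg' s hs, if_pos hsA]
    · intro h' hh'
      apply H₁
      intro s hs
      have e1 := hh' s (Finset.mem_union_left _ hs)
      rw [hg' s (Finset.mem_union_left _ hs)] at e1
      by_cases hsA : s ∈ A
      · rw [if_pos hsA] at e1
        have e2 := hh s (Finset.mem_filter.mpr ⟨hs, hsA⟩)
        calc |h'.1 s - g.1 s| = |(h'.1 s - h.1 s) + (h.1 s - g.1 s)| := by ring_nf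
          _ ≤ |h'.1 s - h.1 s| + |h.1 s - g.1 s| := abs_add_le _ _
          _ < ε₁ / 2 + ε₁ / 2 := add_lt_add e1 e2
          _ = ε₁ := by ring
      · rw [if_neg hsA] at e1
        linarith
  rcases le_abs.mp hbig with hb | hb
  · -- `ψ h` is large
    have hU : ψ h ∈ Set.Ioi (a₂ : ℝ) := by simp only [Set.mem_Ioi]; linarith
    obtain ⟨S₂, ε₂, hε₂, H₂⟩ := exists_cond ψ hψ _ isOpen_Ioi h hU
    obtain ⟨g', hg1, hg2⟩ := key S₂
    refine ⟨⟨ψ, hΦ, a₁, a₂, by exact_mod_cast h3, g', h, S₁ ∪ S₂, min (ε₁ / 2) ε₂,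
      lt_min (by positivity) hε₂, ?_, ?_⟩, fun s hs hsA => hg1 s hs hsA⟩
    · intro h' hh'
      exact (hg2 h' fun s hs => (hh' s hs).trans_le (min_le_left _ _)).2
    · intro h' hh'
      exact H₂ h' fun s hs =>
        (hh' s (Finset.mem_union_right _ hs)).trans_le (min_le_right _ _)
  · have hU : ψ h ∈ Set.Iio (b₁ : ℝ) := by simp only [Set.mem_Iio]; linarith
    obtain ⟨S₂, ε₂, hε₂, H₂⟩ := exists_cond ψ hψ _ isOpen_Iio h hU
    obtain ⟨g', hg1, hg2⟩ := key S₂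
    refine ⟨⟨ψ, hΦ, b₁, b₂, by exact_mod_cast h8, h, g', S₁ ∪ S₂, min (ε₁ / 2) ε₂,
      lt_min (by positivity) hε₂, ?_, ?_⟩, fun s hs hsA => (hg1 s hs hsA).symm⟩
    · intro h' hh'
      exact H₂ h' fun s hs =>
        (hh' s (Finset.mem_union_right _ hs)).trans_le (min_le_right _ _)
    · intro h' hh'
      exact (hg2 h' fun s hs => (hh' s hs).trans_le (min_le_left _ _)).1

/-- From countably-closed families of data to an uncountable finitely independent family. -/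
theorem exists_independent (Φ : Set (Cp K → ℝ))
    (H : ∀ A : Set K, A.Countable → ∃ d : Dat Φ, ∀ s ∈ d.S, s ∈ A → d.gm.1 s = d.gp.1 s) :
    ∃ Γ : Set (Dat Φ), ¬ Γ.Countable ∧ ∃ r r' : ℚ, r < r' ∧ 
      ∀ (t : Dat Φ → Bool) (F : Finset (Dat Φ)), (↑F : Set (Dat Φ)) ⊆ Γ →
        ∃ h : Cp K, ∀ d ∈ F, (t d = false → d.ψ h < r) ∧ (t d = true → (r' : ℝ) < d.ψ h) := by
  classical
  -- step 1: a maximal family
  obtain ⟨Γ₀, -, hp, hmax⟩ := exists_maximal_pairwise (Set.univ : Set (Dat Φ))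
    (fun d e => (∀ s ∈ d.S, s ∈ e.S → d.gm.1 s = d.gp.1 s) ∨
      (∀ s ∈ d.S, s ∈ e.S → e.gm.1 s = e.gp.1 s))
  have h0 : ¬ Γ₀.Countable := by
    intro hc
    obtain ⟨d, hd⟩ := H (⋃ e ∈ Γ₀, (↑e.S : Set K))
      (hc.biUnion fun e _ => Finset.countable_toSet e.S)
    have hmem : ∀ e ∈ Γ₀, ∀ s ∈ d.S, s ∈ e.S → d.gm.1 s = d.gp.1 s := by
      intro e he s hs hse
      exact hd s hs (Set.mem_iUnion₂.mpr ⟨e, he, hse⟩)
    have hdm : d ∈ Γ₀ := by
      apply hmax d (Set.mem_univ d)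
      intro e he _
      exact ⟨Or.inl (hmem e he), Or.inr fun s hs hsd => hmem e he s hsd hs⟩
    obtain ⟨s, hs, hne⟩ := d.exists_ne
    exact hne (hmem d hdm s hs hs)
  -- step 2: a Delta system
  obtain ⟨Γ₁, hΓ₁, R, h1, hR⟩ := exists_delta Γ₀ h0 (fun d => d.S)
  -- step 3: equality on the root
  set Γ₂ : Set (Dat Φ) := {d ∈ Γ₁ | ∀ s ∈ R, d.gm.1 s = d.gp.1 s} with hΓ₂
  have h2 : ¬ Γ₂.Countable := by
    intro hc
    apply h1
    have hsub : (Γ₁ \ Γ₂).Subsingleton := by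
      intro d hd e he
      by_contra hne
      have hrel := hp (hΓ₁ hd.1) (hΓ₁ he.1) hne
      have hRd : ∀ s ∈ R, s ∈ d.S ∧ s ∈ e.S := by
        intro s hs
        rw [← hR d hd.1 e he.1 hne] at hs
        exact Finset.mem_inter.mp hs
      rcases hrel with hrel | hrel
      · exact hd.2 ⟨hd.1, fun s hs => hrel s (hRd s hs).1 (hRd s hs).2⟩
      · exact he.2 ⟨he.1, fun s hs => hrel s (hRd s hs).1 (hRd s hs).2⟩
    have := hc.union hsub.countable
    refine this.mono ?_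
    intro d hd
    by_cases hdd : d ∈ Γ₂
    · exact Or.inl hdd
    · exact Or.inr ⟨hd, hdd⟩
  -- step 4: pigeonhole
  have happ : ∀ d : Dat Φ, ∃ u : R → ℚ, ∀ s : R, |(u s : ℝ) - d.gm.1 s| < d.ε := by
    intro d
    have : ∀ s : R, ∃ q : ℚ, |(q : ℝ) - d.gm.1 s| < d.ε := by
      intro s
      obtain ⟨q, hq1, hq2⟩ := exists_rat_btwn (show d.gm.1 s < d.gm.1 s + d.ε by
        linarith [d.pos])
      exact ⟨q, by rw [abs_lt]; constructor <;> linarith [d.pos]⟩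
    choose u hu using this
    exact ⟨u, hu⟩
  choose u hu using happ
  obtain ⟨⟨r, r', v⟩, h3⟩ := exists_uncountable_fiber Γ₂ h2
    (fun d => ((d.r, d.r', u d) : ℚ × ℚ × (R → ℚ)))
  set Γ₃ : Set (Dat Φ) := {d ∈ Γ₂ | ((d.r, d.r', u d) : ℚ × ℚ × (R → ℚ)) = (r, r', v)} with hΓ₃
  have hΓ₃r : ∀ d ∈ Γ₃, d.r = r ∧ d.r' = r' ∧ u d = v := by
    intro d hd
    have := hd.2
    simp only [Prod.mk.injEq] at this
    exact this
  refine ⟨Γ₃, h3, r, r', ?_, ?_⟩
  · obtain ⟨d, hd⟩ : Γ₃.Nonempty := by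
      by_contra hne
      rw [Set.not_nonempty_iff_eq_empty] at hne
      exact h3 (hne ▸ Set.countable_empty)
    obtain ⟨e1, e2, -⟩ := hΓ₃r d hd
    rw [← e1, ← e2]; exact d.lt
  intro t F hF
  have hΓ₃1 : ∀ d ∈ F, d ∈ Γ₁ := fun d hd => (hF hd).1.1
  -- the function to be interpolated
  set c : K → ℝ := fun s => if hs : s ∈ R then (v ⟨s, hs⟩ : ℝ) else
    if h : ∃ d ∈ F, s ∈ d.S then (if t h.choose then h.choose.gp.1 s else h.choose.gm.1 s)
    else 0 with hc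
  have hc1 : ∀ d ∈ F, ∀ s ∈ d.S, s ∉ R → c s = if t d then d.gp.1 s else d.gm.1 s := by
    intro d hd s hs hsR
    have hex : ∃ d ∈ F, s ∈ d.S := ⟨d, hd, hs⟩
    have hch := hex.choose_spec
    have heq : hex.choose = d := by
      by_contra hne
      apply hsR
      rw [← hR _ (hΓ₃1 _ hch.1) d (hΓ₃1 d hd) hne]
      exact Finset.mem_inter.mpr ⟨hch.2, hs⟩
    simp only [hc, dif_neg hsR, dif_pos hex, heq]
  obtain ⟨h, hh⟩ := exists_interp (R ∪ F.biUnion fun d => d.S) c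
  refine ⟨h, ?_⟩
  intro d hd
  have hhd : ∀ s ∈ d.S, h.1 s = c s := by
    intro s hs
    exact hh s (Finset.mem_union_right _ (Finset.mem_biUnion.mpr ⟨d, hd, hs⟩))
  obtain ⟨e1, e2, e3⟩ := hΓ₃r d (hF hd)
  have hroot : ∀ s ∈ R, |c s - d.gm.1 s| < d.ε := by
    intro s hs
    have := hu d ⟨s, hs⟩
    rw [e3] at this
    simp only [hc, dif_pos hs]
    exact this
  have hroot' : ∀ s ∈ R, d.gm.1 s = d.gp.1 s := (hF hd).1.2
  constructor
  · intro ht
    rw [← e1]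
    apply d.low
    intro s hs
    rw [hhd s hs]
    by_cases hsR : s ∈ R
    · exact hroot s hsR
    · rw [hc1 d hd s hs hsR, ht]
      simp [d.pos]
  · intro ht
    rw [← e2]
    apply d.high
    intro s hs
    rw [hhd s hs]
    by_cases hsR : s ∈ R
    · rw [← hroot' s hsR]; exact hroot s hsR
    · rw [hc1 d hd s hs hsR, ht]
      simp [d.pos]

/-- Every continuous real function on `C_p(K)` depends continuously on countably many
coordinates. -/
theorem exists_dependsOn (ψ : Cp K → ℝ) (hψ : Continuous ψ) :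
    ∃ A : Set K, A.Countable ∧ DependsOn A ψ := by
  classical
  by_contra hno
  push Not at hno
  obtain ⟨Γ, hΓ, r, r', hr, hind⟩ := exists_independent ({ψ} : Set (Cp K → ℝ))
    (fun A hA => exists_dat _ ψ (Set.mem_singleton ψ) hψ A (hno A hA))
  obtain ⟨d, hd, e, he, hne⟩ : ∃ d ∈ Γ, ∃ e ∈ Γ, d ≠ e := by
    by_contra hsub
    push Not at hsub
    exact hΓ (Set.Subsingleton.countable fun d hd e he => hsub d hd e he)
  obtain ⟨h, hh⟩ := hind (fun x => decide (x = e)) {d, e} (by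
    intro x hx
    simp only [Finset.coe_insert, Finset.coe_singleton, Set.mem_insert_iff,
      Set.mem_singleton_iff] at hx
    rcases hx with rfl | rfl
    · exact hd
    · exact he)
  have h1 := (hh d (by simp)).1 (by simp [hne])
  have h2 := (hh e (by simp)).2 (by simp)
  have e1 : d.ψ = ψ := d.mem
  have e2 : e.ψ = ψ := e.mem
  rw [e1] at h1
  rw [e2] at h2
  have h3 : (r : ℝ) < r' := by exact_mod_cast hr
  linarith

end Pool.Agent.CpImages
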