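import Mathlib

/-!
# Delta systems for uncountable families of finite sets
-/

set_option autoImplicit false

namespace Pool.Agent.CpImages

/-- pigeonhole: an uncountable set is not the union of countably many countable fibres -/
theorem exists_uncountable_fiber {β γ : Type*} [Countable γ] (Γ : Set β) (hΓ : ¬ Γ.Countable)
    (c : β → γ) : ∃ x : γ, ¬ {d ∈ Γ | c d = x}.Countable := by
  by_contra h
  push Not at h
  apply hΓ
  have : Γ ⊆ ⋃ x : γ, {d ∈ Γ | c d = x} := by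
    intro d hd
    exact Set.mem_iUnion.mpr ⟨c d, hd, rfl⟩
  exact (Set.countable_iUnion h).mono this

/-- a maximal subset with a symmetric pairwise relation -/
theorem exists_maximal_pairwise {β : Type*} (Γ : Set β) (r : β → β → Prop) :
    ∃ Δ : Set β, Δ ⊆ Γ ∧ Δ.Pairwise r ∧
      ∀ d ∈ Γ, (∀ e ∈ Δ, e ≠ d → r d e ∧ r e d) → d ∈ Δ := by
  obtain ⟨Δ, hΔ⟩ := zorn_subset {Δ : Set β | Δ ⊆ Γ ∧ Δ.Pairwise r} (by
    intro c hc hchain
    refine ⟨⋃₀ c, ⟨?_, ?_⟩, fun s hs => Set.subset_sUnion_of_mem hs⟩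
    · exact Set.sUnion_subset fun s hs => (hc hs).1
    · exact (Set.pairwise_sUnion hchain.directedOn).mpr fun s hs => (hc hs).2)
  refine ⟨Δ, hΔ.prop.1, hΔ.prop.2, ?_⟩
  intro d hd h
  have h1 : insert d Δ ∈ {Δ : Set β | Δ ⊆ Γ ∧ Δ.Pairwise r} := by
    refine ⟨Set.insert_subset hd hΔ.prop.1, ?_⟩
    apply hΔ.prop.2.insert
    intro e he hne
    exact h e he (Ne.symm hne)
  exact hΔ.le_of_ge h1 (Set.subset_insert d Δ) (Set.mem_insert d Δ)

theorem exists_delta_aux {α β : Type*} [DecidableEq α] (n : ℕ) :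
    ∀ (Γ : Set β), ¬ Γ.Countable → ∀ S : β → Finset α, (∀ d ∈ Γ, (S d).card = n) →
    ∃ Γ' ⊆ Γ, ∃ R : Finset α, ¬ Γ'.Countable ∧
      ∀ d ∈ Γ', ∀ d' ∈ Γ', d ≠ d' → S d ∩ S d' = R := by
  induction n with
  | zero =>
    intro Γ hΓ S hS
    refine ⟨Γ, le_rfl, ∅, hΓ, ?_⟩
    intro d hd d' hd' _
    rw [Finset.card_eq_zero.mp (hS d hd)]
    simp
  | succ n ih =>
    intro Γ hΓ S hS
    by_cases hc : ∃ s : α, ¬ {d ∈ Γ | s ∈ S d}.Countable
    · obtain ⟨s, hs⟩ := hc
      obtain ⟨Γ', hΓ', R, hunc, hR⟩ := ih {d ∈ Γ | s ∈ S d} hs (fun d => (S d).erase s) (by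
        intro d hd
        rw [Finset.card_erase_of_mem hd.2, hS d hd.1]
        rfl)
      refine ⟨Γ', fun d hd => (hΓ' hd).1, insert s R, hunc, ?_⟩
      intro d hd d' hd' hne
      rw [← hR d hd d' hd' hne]
      ext x
      have h1 := (hΓ' hd).2
      have h2 := (hΓ' hd').2
      by_cases hx : x = s
      · subst hx; simp [h1, h2]
      · simp [hx]
    · push Not at hc
      obtain ⟨Δ, hΔΓ, hΔp, hΔm⟩ := exists_maximal_pairwise Γ (fun d e => Disjoint (S d) (S e))
      refine ⟨Δ, hΔΓ, ∅, ?_, ?_⟩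
      · intro hcount
        apply hΓ
        have h1 : Γ ⊆ Δ ∪ ⋃ e ∈ Δ, ⋃ s ∈ S e, {d ∈ Γ | s ∈ S d} := by
          intro d hd
          by_cases hdd : d ∈ Δ
          · exact Or.inl hdd
          · right
            have : ¬ ∀ e ∈ Δ, e ≠ d → Disjoint (S d) (S e) ∧ Disjoint (S e) (S d) :=
              fun h => hdd (hΔm d hd h)
            push Not at this
            obtain ⟨e, he, hne, hdis⟩ := this
            have hnd : ¬ Disjoint (S d) (S e) := fun h => hdis h h.symm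
            rw [Finset.not_disjoint_iff] at hnd
            obtain ⟨s, hs1, hs2⟩ := hnd
            simp only [Set.mem_iUnion]
            exact ⟨e, he, s, hs2, hd, hs1⟩
        refine Set.Countable.mono h1 (hcount.union ?_)
        refine hcount.biUnion fun e _ => ?_
        exact (Finset.countable_toSet (S e)).biUnion fun s _ => hc s
      · intro d hd d' hd' hne
        exact Finset.disjoint_iff_inter_eq_empty.mp (hΔp hd hd' hne)

/-- The Delta system lemma for uncountable families of finite sets. -/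
theorem exists_delta {α β : Type*} [DecidableEq α] (Γ : Set β) (hΓ : ¬ Γ.Countable)
    (S : β → Finset α) :
    ∃ Γ' ⊆ Γ, ∃ R : Finset α, ¬ Γ'.Countable ∧
      ∀ d ∈ Γ', ∀ d' ∈ Γ', d ≠ d' → S d ∩ S d' = R := by
  obtain ⟨n, hn⟩ := exists_uncountable_fiber Γ hΓ (fun d => (S d).card)
  obtain ⟨Γ', hΓ', R, h1, h2⟩ := exists_delta_aux n {d ∈ Γ | (S d).card = n} hn S
    (fun d hd => hd.2)
  exact ⟨Γ', fun d hd => (hΓ' hd).1, R, h1, h2⟩

end Pool.Agent.CpImages
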