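import Mathlib

/-!
# Metrizability of images of second countable spaces, and a diagonal argument
-/

set_option autoImplicit false

open Topology

namespace Pool.Agent.CpImages

/-- A compact Hausdorff continuous image of a second countable space is metrizable. -/
theorem metrizable_of_secondCountable {X Y : Type} [TopologicalSpace X]
    [SecondCountableTopology X] [TopologicalSpace Y] [CompactSpace Y] [T2Space Y] (f : X → Y)
    (hf : Continuous f) (hs : Function.Surjective f) : TopologicalSpace.MetrizableSpace Y := by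
  classical
  obtain ⟨B, hBc, -, hB⟩ := TopologicalSpace.exists_countable_basis X
  have : Countable B := hBc
  have key : ∀ p : B × B, ∃ φ : C(Y, ℝ), Disjoint (closure (f '' p.1.1)) (closure (f '' p.2.1)) →
      (∀ y ∈ closure (f '' p.1.1), φ y = 0) ∧ (∀ y ∈ closure (f '' p.2.1), φ y = 1) := by
    intro p
    by_cases hd : Disjoint (closure (f '' p.1.1)) (closure (f '' p.2.1))
    · obtain ⟨φ, h0, h1, -⟩ := exists_continuous_zero_one_of_isClosed isClosed_closure
        isClosed_closure hd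
      exact ⟨φ, fun _ => ⟨fun y hy => h0 hy, fun y hy => h1 hy⟩⟩
    · exact ⟨0, fun h => absurd h hd⟩
  choose φ hφ using key
  have hcont : Continuous fun y : Y => fun p : B × B => φ p y :=
    continuous_pi fun p => (φ p).continuous
  have hinj : Function.Injective fun y : Y => fun p : B × B => φ p y := by
    intro y y' hyy
    by_contra hne
    obtain ⟨U, V, hU, hV, hyU, hyV, hUV⟩ := t2_separation hne
    obtain ⟨W, hW, hyW, hWU⟩ : ∃ W, IsOpen W ∧ y ∈ W ∧ closure W ⊆ U := by
      obtain ⟨W, hW, hWU⟩ := (isOpen_iff_mem_nhds.mp hU y hyU) |> fun h =>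
        exists_mem_nhds_isClosed_subset h
      exact ⟨interior W, isOpen_interior, mem_interior_iff_mem_nhds.mpr hW,
        (closure_minimal interior_subset hWU.1).trans hWU.2⟩
    obtain ⟨W', hW', hyW', hWV⟩ : ∃ W, IsOpen W ∧ y' ∈ W ∧ closure W ⊆ V := by
      obtain ⟨W, hW, hWU⟩ := (isOpen_iff_mem_nhds.mp hV y' hyV) |> fun h =>
        exists_mem_nhds_isClosed_subset h
      exact ⟨interior W, isOpen_interior, mem_interior_iff_mem_nhds.mpr hW,
        (closure_minimal interior_subset hWU.1).trans hWU.2⟩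
    obtain ⟨x, rfl⟩ := hs y
    obtain ⟨x', rfl⟩ := hs y'
    obtain ⟨b, hb, hxb, hbW⟩ := hB.exists_subset_of_mem_open (show x ∈ f ⁻¹' W from hyW)
      (hW.preimage hf)
    obtain ⟨b', hb', hxb', hbW'⟩ := hB.exists_subset_of_mem_open (show x' ∈ f ⁻¹' W' from hyW')
      (hW'.preimage hf)
    have h1 : closure (f '' b) ⊆ U := (closure_mono (Set.image_subset_iff.mpr hbW)).trans hWU
    have h2 : closure (f '' b') ⊆ V := (closure_mono (Set.image_subset_iff.mpr hbW')).trans hWV
    have hd : Disjoint (closure (f '' b)) (closure (f '' b')) :=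
      Set.disjoint_of_subset h1 h2 hUV
    obtain ⟨e0, e1⟩ := hφ (⟨b, hb⟩, ⟨b', hb'⟩) hd
    have e2 := e0 (f x) (subset_closure (Set.mem_image_of_mem f hxb))
    have e3 := e1 (f x') (subset_closure (Set.mem_image_of_mem f hxb'))
    have e4 := congrFun hyy (⟨b, hb⟩, ⟨b', hb'⟩)
    simp only at e4
    rw [e2, e3] at e4
    exact zero_ne_one e4
  exact (hcont.isClosedEmbedding hinj).isEmbedding.metrizableSpace

/-- A real function is fragmented: on every closed set it has small oscillation on some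
relatively open piece of each relatively open set. -/
def Frag {Q : Type} [TopologicalSpace Q] (h : Q → ℝ) : Prop :=
  ∀ C : Set Q, IsClosed C → ∀ O : Set Q, IsOpen O → (O ∩ C).Nonempty → ∀ η : ℝ, 0 < η →
    ∃ O' ⊆ O, IsOpen O' ∧ (O' ∩ C).Nonempty ∧
      ∀ z ∈ O' ∩ C, ∀ z' ∈ O' ∩ C, |h z - h z'| ≤ η

/-- The diagonal argument: a second countable space on which uncountably many fragmented functions
are given does not realise every pattern. -/
theorem exists_pattern {Q : Type} [TopologicalSpace Q] [SecondCountableTopology Q] {W : Type}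
    (hW : ¬ Countable W) (ψ : W → Q → ℝ) (hψ : ∀ w, Frag (ψ w)) (r r' : ℝ) (hr : r < r') :
    ∃ t : W → Bool, ∀ z, ∃ w, ¬ ((t w = false → ψ w z ≤ r) ∧ (t w = true → r' ≤ ψ w z)) := by
  classical
  -- states: a countable set of indices and values there
  let Con : Set W → (W → Bool) → Set Q := fun N t =>
    {z | ∀ w ∈ N, (t w = false → ψ w z ≤ r) ∧ (t w = true → r' ≤ ψ w z)}
  obtain ⟨B, hBc, -, hB⟩ := TopologicalSpace.exists_countable_basis Q
  obtain ⟨b, hb⟩ : ∃ b : ℕ → Set Q, B ⊆ Set.range b := by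
    rcases B.eq_empty_or_nonempty with h | h
    · exact ⟨fun _ => ∅, by rw [h]; exact Set.empty_subset _⟩
    · obtain ⟨b, hb⟩ := hBc.exists_eq_range h
      exact ⟨b, hb.le⟩
  let Ext : Set W × (W → Bool) → Set W × (W → Bool) → Prop := fun p q =>
    p.1 ⊆ q.1 ∧ q.1.Countable ∧ ∀ w ∈ p.1, q.2 w = p.2 w
  have hstep : ∀ (n : ℕ) (p : Set W × (W → Bool)), p.1.Countable → ∃ q, Ext p q ∧
      (∀ q', Ext p q' → Con q'.1 q'.2 ∩ b n = ∅ → Con q.1 q.2 ∩ b n = ∅) := by
    intro n p hp
    by_cases h : ∃ q', Ext p q' ∧ Con q'.1 q'.2 ∩ b n = ∅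
    · obtain ⟨q', h1, h2⟩ := h
      exact ⟨q', h1, fun _ _ _ => h2⟩
    · push Not at h
      refine ⟨p, ⟨le_rfl, hp, fun _ _ => rfl⟩, ?_⟩
      intro q' h1 h2
      exact absurd h2 (Set.nonempty_iff_ne_empty.mp (h q' h1))
  choose nxt hnxt1 hnxt2 using hstep
  -- the sequence of states
  let st : ℕ → {p : Set W × (W → Bool) // p.1.Countable} := fun n =>
    Nat.rec ⟨(∅, fun _ => false), Set.countable_empty⟩
      (fun n p => ⟨nxt n p.1 p.2, (hnxt1 n p.1 p.2).2.1⟩) n
  have hst : ∀ n, Ext (st n).1 (st (n + 1)).1 := fun n => hnxt1 n (st n).1 (st n).2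
  have hst2 : ∀ n q', Ext (st n).1 q' → Con q'.1 q'.2 ∩ b n = ∅ →
      Con (st (n + 1)).1.1 (st (n + 1)).1.2 ∩ b n = ∅ := fun n => hnxt2 n (st n).1 (st n).2
  have hmono : ∀ m n, m ≤ n → (st m).1.1 ⊆ (st n).1.1 ∧
      ∀ w ∈ (st m).1.1, (st n).1.2 w = (st m).1.2 w := by
    intro m n hmn
    induction n, hmn using Nat.le_induction with
    | base => exact ⟨le_rfl, fun _ _ => rfl⟩
    | succ n hmn ih =>
      refine ⟨ih.1.trans (hst n).1, fun w hw => ?_⟩
      rw [(hst n).2.2 w (ih.1 hw), ih.2 w hw]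
  set N : Set W := ⋃ n, (st n).1.1 with hN
  have hNc : N.Countable := Set.countable_iUnion fun n => (st n).2
  let t : W → Bool := fun w => if h : ∃ n, w ∈ (st n).1.1 then (st h.choose).1.2 w else false
  have ht : ∀ n, ∀ w ∈ (st n).1.1, t w = (st n).1.2 w := by
    intro n w hw
    have hex : ∃ n, w ∈ (st n).1.1 := ⟨n, hw⟩
    have h1 : t w = (st hex.choose).1.2 w := dif_pos hex
    rw [h1]
    have h2 := hex.choose_spec
    rcases le_total n hex.choose with h | h
    · rw [(hmono _ _ h).2 w hw]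
    · rw [(hmono _ _ h).2 w h2]
  have hExt : ∀ n, ∀ q' : Set W × (W → Bool), Ext (N, t) q' → Ext (st n).1 q' := by
    intro n q' hq
    refine ⟨(Set.subset_iUnion (fun n => (st n).1.1) n).trans hq.1, hq.2.1, fun w hw => ?_⟩
    rw [hq.2.2 w (Set.mem_iUnion.mpr ⟨n, hw⟩)]
    exact ht n w hw
  -- minimality
  have hmin : ∀ q' : Set W × (W → Bool), Ext (N, t) q' → ∀ n, Con q'.1 q'.2 ∩ b n = ∅ →
      Con N t ∩ b n = ∅ := by
    intro q' hq n hn
    have h1 := hst2 n q' (hExt n q' hq) hn
    rw [Set.eq_empty_iff_forall_notMem] at h1 ⊢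
    intro z hz
    apply h1 z
    refine ⟨?_, hz.2⟩
    intro w hw
    have := hz.1 w (Set.mem_iUnion.mpr ⟨n + 1, hw⟩)
    rw [ht (n + 1) w hw] at this
    exact this
  -- an index outside
  obtain ⟨w, hw⟩ : ∃ w, w ∉ N := by
    by_contra hall
    push Not at hall
    apply hW
    rw [← Set.countable_univ_iff]
    exact hNc.mono fun w _ => hall w
  -- the consistent set is empty
  have hempty : Con N t = ∅ := by
    by_contra hne
    obtain ⟨z₀, hz₀⟩ := Set.nonempty_iff_ne_empty.mpr hne
    obtain ⟨O, -, hO, ⟨z₁, hz₁O, hz₁C⟩, hosc⟩ := hψ w (closure (Con N t)) isClosed_closure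
      Set.univ isOpen_univ ⟨z₀, Set.mem_univ _, subset_closure hz₀⟩ ((r' - r) / 3) (by linarith)
    obtain ⟨z₂, hz₂O, hz₂⟩ := mem_closure_iff.mp hz₁C O hO hz₁O
    obtain ⟨V, hVB, hzV, hVO⟩ := hB.exists_subset_of_mem_open hz₂O hO
    obtain ⟨n, hn⟩ := hb hVB
    -- choose the value at `w`
    let v : Bool := if ψ w z₂ < (r + r') / 2 then true else false
    have hbad : ∀ z ∈ Con N t, z ∈ V → ¬ ((v = false → ψ w z ≤ r) ∧ (v = true → r' ≤ ψ w z)) := by
      intro z hz hzV' hcon
      have h1 := hosc z ⟨hVO hzV', subset_closure hz⟩ z₂ ⟨hz₂O, subset_closure hz₂⟩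
      rw [abs_le] at h1
      by_cases hc : ψ w z₂ < (r + r') / 2
      · have : v = true := if_pos hc
        have := hcon.2 this
        linarith
      · have : v = false := if_neg hc
        have h2 := hcon.1 this
        push Not at hc
        linarith
    let t' : W → Bool := Function.update t w v
    have hE : Ext (N, t) (insert w N, t') := by
      refine ⟨Set.subset_insert w N, hNc.insert w, fun x hx => ?_⟩
      have hxw : x ≠ w := fun h => hw (h ▸ hx)
      exact Function.update_of_ne hxw v t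
    have h1 := hmin (insert w N, t') hE n (by
      rw [Set.eq_empty_iff_forall_notMem]
      rintro z ⟨hz, hzb⟩
      rw [hn] at hzb
      have hzN : z ∈ Con N t := by
        intro x hx
        have h2 : (t' x = false → ψ x z ≤ r) ∧ (t' x = true → r' ≤ ψ x z) :=
          hz x (Set.mem_insert_of_mem w hx)
        rwa [show t' x = t x from hE.2.2 x hx] at h2
      have hzw : (t' w = false → ψ w z ≤ r) ∧ (t' w = true → r' ≤ ψ w z) :=
        hz w (Set.mem_insert w N)
      rw [show t' w = v from Function.update_self w v t] at hzw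
      exact hbad z hzN hzb hzw)
    rw [Set.eq_empty_iff_forall_notMem] at h1
    exact h1 z₂ ⟨hz₂, hn ▸ hzV⟩
  refine ⟨t, fun z => ?_⟩
  by_contra hall
  push Not at hall
  have : z ∈ Con N t := fun w _ => hall w
  rw [hempty] at this
  exact this

end Pool.Agent.CpImages
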