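import Pool.Agent.CpImages.Cond
import Pool.Agent.CpImages.Diag

/-!
# Fragmented functions
-/

set_option autoImplicit false

open Topology Filter

namespace Pool.Agent.CpImages

/-- A real function is of the first Baire class: a pointwise limit of a sequence of continuous
functions. -/
def IsBaireOne {P : Type} [TopologicalSpace P] (h : P → ℝ) : Prop :=
  ∃ u : ℕ → P → ℝ, (∀ n, Continuous (u n)) ∧ ∀ y, Tendsto (fun n => u n y) atTop (𝓝 (h y))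

theorem Frag.comp {Q Q' : Type} [TopologicalSpace Q] [TopologicalSpace Q'] {h : Q → ℝ}
    (hh : Frag h) {q : Q' → Q} (hq : Continuous q) : Frag fun z => h (q z) := by
  intro C hC O hO hne η hη
  obtain ⟨O₁, -, hO₁, ⟨x, hx1, hx2⟩, hosc⟩ := hh (closure (q '' (O ∩ C))) isClosed_closure Set.univ
    isOpen_univ (by
      obtain ⟨z, hz⟩ := hne
      exact ⟨q z, Set.mem_univ _, subset_closure (Set.mem_image_of_mem q hz)⟩) η hη
  obtain ⟨_, hy1, ⟨z, hz, rfl⟩⟩ := mem_closure_iff.mp hx2 O₁ hO₁ hx1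
  refine ⟨O ∩ q ⁻¹' O₁, Set.inter_subset_left, hO.inter (hO₁.preimage hq), ⟨z, ⟨hz.1, hy1⟩, hz.2⟩,
    ?_⟩
  intro z₁ hz₁ z₂ hz₂
  exact hosc (q z₁) ⟨hz₁.1.2, subset_closure ⟨z₁, ⟨hz₁.1.1, hz₁.2⟩, rfl⟩⟩ (q z₂)
    ⟨hz₂.1.2, subset_closure ⟨z₂, ⟨hz₂.1.1, hz₂.2⟩, rfl⟩⟩

theorem Frag.map₂ {Q : Type} [TopologicalSpace Q] {h₁ h₂ : Q → ℝ} (H₁ : Frag h₁) (H₂ : Frag h₂)
    (F : ℝ → ℝ → ℝ) (hF : Continuous fun p : ℝ × ℝ => F p.1 p.2) :
    Frag fun z => F (h₁ z) (h₂ z) := by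
  intro C hC O hO hne η hη
  obtain ⟨O₁, hO₁O, hO₁, hne₁, hosc₁⟩ := H₁ C hC O hO hne 1 one_pos
  obtain ⟨O₂, hO₂O, hO₂, ⟨z₀, hz₀⟩, hosc₂⟩ := H₂ C hC O₁ hO₁ hne₁ 1 one_pos
  have hK : IsCompact (Metric.closedBall (h₁ z₀) 1 ×ˢ Metric.closedBall (h₂ z₀) 1) :=
    (isCompact_closedBall _ _).prod (isCompact_closedBall _ _)
  have hu := hK.uniformContinuousOn_of_continuous hF.continuousOn
  obtain ⟨δ, hδ, hδF⟩ := Metric.uniformContinuousOn_iff.mp hu η hη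
  obtain ⟨O₃, hO₃O, hO₃, hne₃, hosc₃⟩ := H₁ C hC O₂ hO₂ ⟨z₀, hz₀⟩ (δ / 2) (by positivity)
  obtain ⟨O₄, hO₄O, hO₄, hne₄, hosc₄⟩ := H₂ C hC O₃ hO₃ hne₃ (δ / 2) (by positivity)
  refine ⟨O₄, hO₄O.trans (hO₃O.trans (hO₂O.trans hO₁O)), hO₄, hne₄, ?_⟩
  intro z hz z' hz'
  have hbox : ∀ z ∈ O₄ ∩ C, (h₁ z, h₂ z) ∈
      Metric.closedBall (h₁ z₀) 1 ×ˢ Metric.closedBall (h₂ z₀) 1 := by
    intro z hz
    have hz2 : z ∈ O₂ ∩ C := ⟨hO₃O (hO₄O hz.1), hz.2⟩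
    constructor
    · simp only [Metric.mem_closedBall, Real.dist_eq]
      exact hosc₁ z ⟨hO₂O hz2.1, hz.2⟩ z₀ ⟨hO₂O hz₀.1, hz₀.2⟩
    · simp only [Metric.mem_closedBall, Real.dist_eq]
      exact hosc₂ z hz2 z₀ hz₀
  have := hδF (h₁ z, h₂ z) (hbox z hz) (h₁ z', h₂ z') (hbox z' hz') (by
    rw [Prod.dist_eq]
    apply max_lt
    · rw [Real.dist_eq]
      have := hosc₃ z ⟨hO₄O hz.1, hz.2⟩ z' ⟨hO₄O hz'.1, hz'.2⟩
      simp only
      linarith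
    · rw [Real.dist_eq]
      have := hosc₄ z hz z' hz'
      simp only
      linarith)
  rw [Real.dist_eq] at this
  exact this.le

theorem Frag.of_uniform {Q : Type} [TopologicalSpace Q] {h : Q → ℝ}
    (H : ∀ η : ℝ, 0 < η → ∃ h' : Q → ℝ, Frag h' ∧ ∀ z, |h z - h' z| ≤ η) : Frag h := by
  intro C hC O hO hne η hη
  obtain ⟨h', hh', hle⟩ := H (η / 3) (by positivity)
  obtain ⟨O₁, h1, h2, h3, hosc⟩ := hh' C hC O hO hne (η / 3) (by positivity)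
  refine ⟨O₁, h1, h2, h3, fun z hz z' hz' => ?_⟩
  have e1 := abs_le.mp (hle z)
  have e2 := abs_le.mp (hle z')
  have e3 := abs_le.mp (hosc z hz z' hz')
  rw [abs_le]
  constructor <;> linarith

theorem Frag.of_continuous {Q : Type} [TopologicalSpace Q] {h : Q → ℝ} (hh : Continuous h) :
    Frag h := by
  intro C hC O hO hne η hη
  obtain ⟨z₀, hz₀⟩ := hne
  refine ⟨O ∩ h ⁻¹' Metric.ball (h z₀) (η / 2), Set.inter_subset_left,
    hO.inter (Metric.isOpen_ball.preimage hh),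
    ⟨z₀, ⟨hz₀.1, by simp [hη]⟩, hz₀.2⟩, ?_⟩
  intro z hz z' hz'
  have e1 : |h z - h z₀| < η / 2 := hz.1.2
  have e2 : |h z' - h z₀| < η / 2 := hz'.1.2
  rw [abs_lt] at e1 e2
  rw [abs_le]
  constructor <;> linarith

theorem Frag.sigma {ι : Type} {Q : ι → Type} [∀ i, TopologicalSpace (Q i)]
    {h : (Σ i, Q i) → ℝ} (H : ∀ i, Frag fun z : Q i => h ⟨i, z⟩) : Frag h := by
  intro C hC O hO hne η hη
  obtain ⟨⟨i, z⟩, hz⟩ := hne
  obtain ⟨O₁, h1, h2, ⟨z₁, hz₁⟩, hosc⟩ := H i (Sigma.mk i ⁻¹' C) (hC.preimage continuous_sigmaMk)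
    (Sigma.mk i ⁻¹' O) (hO.preimage continuous_sigmaMk) ⟨z, hz⟩ η hη
  refine ⟨Sigma.mk i '' O₁, ?_, isOpenMap_sigmaMk O₁ h2, ⟨⟨i, z₁⟩, ⟨z₁, hz₁.1, rfl⟩, hz₁.2⟩, ?_⟩
  · rintro _ ⟨x, hx, rfl⟩
    exact h1 hx
  · rintro _ ⟨⟨x, hx, rfl⟩, hxC⟩ _ ⟨⟨y, hy, rfl⟩, hyC⟩
    exact hosc x ⟨hx, hxC⟩ y ⟨hy, hyC⟩

/-- Functions of the first Baire class on a Polish space are fragmented. -/
theorem Frag.of_baireOne {P : Type} [TopologicalSpace P] [PolishSpace P] {h : P → ℝ}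
    (hh : IsBaireOne h) : Frag h := by
  intro C hC O hO hne η hη
  obtain ⟨u, hu, hlim⟩ := hh
  have : PolishSpace C := hC.polishSpace
  let F : ℕ → Set C := fun n => {z | ∀ m, n ≤ m → |u m z - u n z| ≤ η / 4}
  have hFc : ∀ n, IsClosed (F n) := by
    intro n
    have : F n = ⋂ m, ⋂ (_ : n ≤ m), {z : C | |u m z - u n z| ≤ η / 4} := by
      ext z; simp [F]
    rw [this]
    refine isClosed_iInter fun m => isClosed_iInter fun _ => ?_
    exact isClosed_le (((hu m).comp continuous_subtype_val).sub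
      ((hu n).comp continuous_subtype_val)).abs continuous_const
  have hFu : ⋃ n, F n = Set.univ := by
    rw [Set.eq_univ_iff_forall]
    intro z
    have hc := (hlim z).cauchySeq
    obtain ⟨n, hn⟩ := Metric.cauchySeq_iff'.mp hc (η / 4) (by positivity)
    refine Set.mem_iUnion.mpr ⟨n, fun m hm => ?_⟩
    have := hn m hm
    rw [Real.dist_eq] at this
    exact this.le
  have hd := dense_iUnion_interior_of_closed hFc hFu
  obtain ⟨z₀, hz₀⟩ := hne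
  obtain ⟨z, hzO, hz⟩ := hd.inter_open_nonempty (Subtype.val ⁻¹' O)
    (hO.preimage continuous_subtype_val) ⟨⟨z₀, hz₀.2⟩, hz₀.1⟩
  obtain ⟨n, hn⟩ := Set.mem_iUnion.mp hz
  obtain ⟨V, hV, hVF⟩ := isOpen_induced_iff.mp (isOpen_interior (s := F n))
  have hzV : z.1 ∈ V := by
    have : z ∈ Subtype.val ⁻¹' V := by rw [hVF]; exact hn
    exact this
  refine ⟨O ∩ V ∩ (u n) ⁻¹' Metric.ball (u n z) (η / 8),
    fun x hx => hx.1.1, (hO.inter hV).inter (Metric.isOpen_ball.preimage (hu n)),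
    ⟨z.1, ⟨⟨hzO, hzV⟩, by simp [hη]⟩, z.2⟩, ?_⟩
  have key : ∀ x ∈ (O ∩ V ∩ (u n) ⁻¹' Metric.ball (u n z) (η / 8)) ∩ C,
      |h x - u n z| ≤ η / 4 + η / 8 := by
    intro x hx
    have h1 : (⟨x, hx.2⟩ : C) ∈ F n := by
      apply interior_subset (s := F n)
      rw [← hVF]
      exact hx.1.1.2
    have h2 : |h x - u n x| ≤ η / 4 := by
      have h3 : Tendsto (fun m => |u m x - u n x|) atTop (𝓝 |h x - u n x|) :=
        ((hlim x).sub_const _).abs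
      refine le_of_tendsto h3 ?_
      filter_upwards [eventually_ge_atTop n] with m hm
      exact h1 m hm
    have h4 : |u n x - u n z| < η / 8 := hx.1.2
    calc |h x - u n z| = |(h x - u n x) + (u n x - u n z)| := by ring_nf
      _ ≤ |h x - u n x| + |u n x - u n z| := abs_add_le _ _
      _ ≤ _ := by linarith
  intro x hx y hy
  have e1 := abs_le.mp (key x hx)
  have e2 := abs_le.mp (key y hy)
  rw [abs_le]
  constructor <;> linarith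

variable {K : Type} [TopologicalSpace K] [CompactSpace K] [T2Space K]

omit [CompactSpace K] [T2Space K] in
/-- A continuous function of countably many fragmented coordinates on a Polish space is
fragmented. -/
theorem Frag.of_dependsOn {Q : Type} [TopologicalSpace Q] [PolishSpace Q] (π : Q → Cp K)
    (hπ : ∀ k, Frag fun z => (π z).1 k) (A : Set K) (hA : A.Countable) (ψ : Cp K → ℝ)
    (hψ : DependsOn A ψ) : Frag fun z => ψ (π z) := by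
  intro C hC O hO hne η hη
  have : PolishSpace C := hC.polishSpace
  have : Countable A := hA
  let G : A × ℕ → Set C := fun p => {z | ∃ V : Set Q, IsOpen V ∧ z.1 ∈ V ∧
    ∀ x ∈ V ∩ C, ∀ y ∈ V ∩ C, |(π x).1 p.1 - (π y).1 p.1| ≤ 1 / (p.2 + 1 : ℝ)}
  have hG : ∀ p, IsOpen (G p) := by
    intro p
    rw [isOpen_iff_forall_mem_open]
    rintro z ⟨V, hV, hzV, hosc⟩
    exact ⟨Subtype.val ⁻¹' V, fun x hx => ⟨V, hV, hx, hosc⟩, hV.preimage continuous_subtype_val,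
      hzV⟩
  have hGd : ∀ p, Dense (G p) := by
    intro p
    rw [dense_iff_inter_open]
    rintro U hU ⟨z, hz⟩
    obtain ⟨V, hV, rfl⟩ := isOpen_induced_iff.mp hU
    obtain ⟨O', hO'V, hO', ⟨x, hx⟩, hosc⟩ := hπ p.1 C hC V hV ⟨z.1, hz, z.2⟩ (1 / (p.2 + 1 : ℝ))
      (by positivity)
    exact ⟨⟨x, hx.2⟩, hO'V hx.1, O', hO', hx.1, hosc⟩
  have hd : Dense (⋂ p, G p) := dense_iInter_of_isOpen hG hGd
  obtain ⟨z₀, hz₀⟩ := hne
  obtain ⟨z, hzO, hz⟩ := hd.inter_open_nonempty (Subtype.val ⁻¹' O)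
    (hO.preimage continuous_subtype_val) ⟨⟨z₀, hz₀.2⟩, hz₀.1⟩
  obtain ⟨S, hSA, ε, hε, hS⟩ := hψ (π z) (η / 2) (by positivity)
  obtain ⟨m, hm⟩ := exists_nat_one_div_lt hε
  have hV : ∀ s : K, ∃ V : Set Q, IsOpen V ∧ z.1 ∈ V ∧ (s ∈ S →
      ∀ x ∈ V ∩ C, ∀ y ∈ V ∩ C, |(π x).1 s - (π y).1 s| ≤ 1 / (m + 1 : ℝ)) := by
    intro s
    by_cases hs : s ∈ S
    · obtain ⟨V, h1, h2, h3⟩ := Set.mem_iInter.mp hz (⟨s, hSA hs⟩, m)
      exact ⟨V, h1, h2, fun _ => h3⟩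
    · exact ⟨Set.univ, isOpen_univ, Set.mem_univ _, fun h => absurd h hs⟩
  choose V hVo hzV hVS using hV
  refine ⟨O ∩ ⋂ s ∈ S, V s, Set.inter_subset_left,
    hO.inter (isOpen_biInter_finset fun s _ => hVo s),
    ⟨z.1, ⟨hzO, Set.mem_iInter₂.mpr fun s _ => hzV s⟩, z.2⟩, ?_⟩
  have key : ∀ x ∈ (O ∩ ⋂ s ∈ S, V s) ∩ C, |ψ (π x) - ψ (π z)| < η / 2 := by
    intro x hx
    apply hS
    intro s hs
    have := hVS s hs x ⟨Set.mem_iInter₂.mp hx.1.2 s hs, hx.2⟩ z.1 ⟨hzV s, z.2⟩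
    exact this.trans_lt hm
  intro x hx y hy
  have e1 := abs_lt.mp (key x hx)
  have e2 := abs_lt.mp (key y hy)
  rw [abs_le]
  constructor <;> linarith

end Pool.Agent.CpImages
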