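import Pool.Agent.CpImages.Rep

/-!
# Compact images of `C_p(K)` for compacta with fragmented function spaces
-/

set_option autoImplicit false

open Topology Filter Cardinal

namespace Pool.Agent.CpImages

section metr

variable {K : Type} [TopologicalSpace K] [CompactSpace K] [T2Space K]

omit [CompactSpace K] [T2Space K] in
/-- If all functions `φ ∘ f` depend on the same countable set, then the compact image is
metrizable. -/
theorem metrizable_of_dependsOn {Y : Type} [TopologicalSpace Y] [CompactSpace Y] [T2Space Y]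
    (f : Cp K → Y) (hs : Function.Surjective f) (A : Set K) (hA : A.Countable)
    (H : ∀ φ : C(Y, ℝ), DependsOn A fun g => φ (f g)) : TopologicalSpace.MetrizableSpace Y := by
  have : Countable A := hA
  let ρ : Cp K → (A → ℝ) := fun g a => g.1 a
  let τ : TopologicalSpace (Cp K) := TopologicalSpace.induced ρ inferInstance
  have h2 : @SecondCountableTopology (Cp K) τ :=
    @TopologicalSpace.secondCountableTopology_induced (Cp K) (A → ℝ) _ _ ρ
  have hcont : @Continuous (Cp K) Y τ _ f := by
    rw [@continuous_iff_continuousAt (Cp K) Y τ]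
    intro g U hU
    rw [Filter.mem_map]
    obtain ⟨V, hVU, hV, hgV⟩ := mem_nhds_iff.mp hU
    obtain ⟨φ, h0, h1, -⟩ := exists_continuous_zero_one_of_isClosed
      (isClosed_singleton (x := f g)) hV.isClosed_compl (by
        rw [Set.disjoint_singleton_left]
        exact fun h => h hgV)
    obtain ⟨S, hSA, ε, hε, hS⟩ := H φ g 1 one_pos
    have hmem : {h : Cp K | ∀ s ∈ S, |h.1 s - g.1 s| < ε} ∈ @nhds (Cp K) τ g := by
      rw [nhds_induced ρ g, Filter.mem_comap]
      refine ⟨{x : A → ℝ | ∀ s : A, s.1 ∈ S → |x s - g.1 s| < ε}, ?_, ?_⟩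
      · have hfin : {s : A | s.1 ∈ S}.Finite :=
          Set.Finite.preimage Subtype.val_injective.injOn S.finite_toSet
        have : {x : A → ℝ | ∀ s : A, s.1 ∈ S → |x s - g.1 s| < ε} =
            {s : A | s.1 ∈ S}.pi fun s => Metric.ball (g.1 s) ε := by
          ext x
          simp only [Set.mem_ofPred_eq, Set.mem_pi, Metric.mem_ball, Real.dist_eq]
        rw [this]
        exact set_pi_mem_nhds hfin fun s _ => Metric.ball_mem_nhds _ hε
      · intro h hh s hs
        exact hh ⟨s, hSA hs⟩ hs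
    refine Filter.mem_of_superset hmem ?_
    intro h hh
    have h3 : |φ (f h) - φ (f g)| < 1 := hS h hh
    by_contra hcon
    have h4 : f h ∈ Vᶜ := fun h5 => hcon (hVU h5)
    have h5 : φ (f h) = 1 := h1 h4
    have h6 : φ (f g) = 0 := h0 rfl
    rw [h5, h6] at h3
    norm_num at h3
  exact @metrizable_of_secondCountable (Cp K) Y τ h2 _ _ _ f hcont hs

end metr

/-- the first uncountable ordinal as a type -/
abbrev Om : Type := (Cardinal.aleph 1).ord.ToType

theorem mk_Om : #Om = Cardinal.aleph 1 := by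
  simp [Om]

theorem not_countable_Om : ¬ Countable Om := by
  rw [← Cardinal.mk_le_aleph0_iff, mk_Om, not_le]
  exact Cardinal.aleph0_lt_aleph_one

theorem countable_Iio_Om (a : Om) : (Set.Iio a).Countable := by
  have h : #(Set.Iio a) < #Om := Cardinal.mk_Iio_lt a (by rw [mk_Om, Ordinal.type_toType])
  have h2 : #(Set.Iio a) < Order.succ ℵ₀ := h.trans_eq (mk_Om.trans Cardinal.succ_aleph0.symm)
  rw [Order.lt_succ_iff, Cardinal.mk_le_aleph0_iff] at h2
  exact h2

theorem exists_gt_Om (s : ℕ → Om) : ∃ a : Om, ∀ n, s n < a := by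
  by_contra h
  push Not at h
  apply not_countable_Om
  rw [← Set.countable_univ_iff]
  have : (Set.univ : Set Om) ⊆ ⋃ n, (Set.Iio (s n) ∪ {s n}) := by
    intro a _
    obtain ⟨n, hn⟩ := h a
    rcases hn.lt_or_eq with h1 | h1
    · exact Set.mem_iUnion.mpr ⟨n, Or.inl h1⟩
    · exact Set.mem_iUnion.mpr ⟨n, Or.inr h1⟩
  exact (Set.countable_iUnion fun n => (countable_Iio_Om (s n)).union
    (Set.countable_singleton _)).mono this

variable {K : Type} [TopologicalSpace K] [CompactSpace K] [T2Space K]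

/-- The main theorem in terms of representable covers. -/
theorem metrizable_of_rep (R : Om → Set C(K, ℝ)) (hR : ∀ a, Rep (R a))
    (hcov : ∀ g : C(K, ℝ), ∃ a, g ∈ R a)
    {Y : Type} [TopologicalSpace Y] [CompactSpace Y] [T2Space Y] (f : Cp K → Y)
    (hf : Continuous f) (hs : Function.Surjective f) : TopologicalSpace.MetrizableSpace Y := by
  classical
  by_contra hY
  let Φ : Set (Cp K → ℝ) := Set.range fun φ : C(Y, ℝ) => fun g => φ (f g)
  have hΦc : ∀ ψ ∈ Φ, Continuous ψ := by
    rintro _ ⟨φ, rfl⟩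
    exact φ.continuous.comp hf
  have hdat : ∀ A : Set K, A.Countable →
      ∃ d : Dat Φ, ∀ s ∈ d.S, s ∈ A → d.gm.1 s = d.gp.1 s := by
    intro A hA
    by_contra hno
    apply hY
    refine metrizable_of_dependsOn f hs A hA fun φ => ?_
    by_contra hφ
    exact hno (exists_dat Φ _ ⟨φ, rfl⟩ (hΦc _ ⟨φ, rfl⟩) A hφ)
  obtain ⟨Γ, hΓ, r, r', hr, hind⟩ := exists_independent Φ hdat
  have hr' : (r : ℝ) < r' := by exact_mod_cast hr
  -- realisation of all patterns
  have hreal : ∀ t : Dat Φ → Bool, ∃ g : Cp K, ∀ d ∈ Γ,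
      (t d = false → d.ψ g ≤ r) ∧ (t d = true → (r' : ℝ) ≤ d.ψ g) := by
    intro t
    have hφ : ∀ d : Dat Φ, ∃ φ : C(Y, ℝ), d.ψ = fun g => φ (f g) := by
      intro d
      obtain ⟨φ, hφ⟩ := d.mem
      exact ⟨φ, hφ.symm⟩
    choose φ hφ using hφ
    let F : Γ → Set Y := fun d => {y | (t d = false → φ d y ≤ r) ∧ (t d = true → (r' : ℝ) ≤ φ d y)}
    have hFc : ∀ d, IsClosed (F d) := by
      intro d
      have : F d = (if t d = false then {y | φ d y ≤ r} else Set.univ) ∩
          (if t d = true then {y | (r' : ℝ) ≤ φ d y} else Set.univ) := by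
        ext y
        simp only [F, Set.mem_ofPred_eq, Set.mem_inter_iff]
        split_ifs <;> simp_all
      rw [this]
      apply IsClosed.inter
      · split_ifs
        · exact isClosed_le (φ d).continuous continuous_const
        · exact isClosed_univ
      · split_ifs
        · exact isClosed_le continuous_const (φ d).continuous
        · exact isClosed_univ
    have hne : (⋂ d, F d).Nonempty := by
      apply CompactSpace.iInter_nonempty hFc
      intro s
      obtain ⟨h, hh⟩ := hind t (s.image Subtype.val) (by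
        intro d hd
        simp only [Finset.coe_image, Set.mem_image, Finset.mem_coe] at hd
        obtain ⟨x, -, rfl⟩ := hd
        exact x.2)
      refine ⟨f h, Set.mem_iInter₂.mpr fun d hd => ?_⟩
      have := hh d (Finset.mem_image_of_mem _ hd)
      rw [hφ d] at this
      exact ⟨fun ht => (this.1 ht).le, fun ht => (this.2 ht).le⟩
    obtain ⟨y, hy⟩ := hne
    obtain ⟨g, rfl⟩ := hs y
    refine ⟨g, fun d hd => ?_⟩
    have := Set.mem_iInter.mp hy ⟨d, hd⟩
    rw [hφ d]
    exact this
  -- an injection of blocks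
  obtain ⟨j⟩ : Nonempty (Om × Om ↪ Γ) := by
    rw [← Cardinal.le_def, ← Cardinal.mul_def, mk_Om,
      Cardinal.mul_eq_self (Cardinal.aleph0_le_aleph 1)]
    rw [← Cardinal.succ_aleph0, Order.succ_le_iff, ← not_le, Cardinal.mk_le_aleph0_iff]
    exact fun h => hΓ h
  choose Q tQ pQ π hπ hRπ using hR
  -- the diagonal
  have hdiag : ∀ a : Om, ∃ t : Om → Bool, ∀ z : Q a, ∃ w : Om,
      ¬ ((t w = false → (j (a, w)).1.ψ ⟨π a z, (π a z).continuous⟩ ≤ r) ∧
        (t w = true → (r' : ℝ) ≤ (j (a, w)).1.ψ ⟨π a z, (π a z).continuous⟩)) := by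
    intro a
    let _ := tQ a
    have _ := pQ a
    refine exists_pattern not_countable_Om
      (fun w z => (j (a, w)).1.ψ ⟨π a z, (π a z).continuous⟩) ?_ r r' hr'
    intro w
    obtain ⟨A, hA, hdep⟩ := exists_dependsOn (j (a, w)).1.ψ (hΦc _ (j (a, w)).1.mem)
    exact Frag.of_dependsOn (fun z => ⟨π a z, (π a z).continuous⟩) (hπ a) A hA _ hdep
  choose t ht using hdiag
  let T : Dat Φ → Bool := fun d => if h : ∃ p : Om × Om, (j p).1 = d then
    t h.choose.1 h.choose.2 else false
  have hT : ∀ p : Om × Om, T (j p).1 = t p.1 p.2 := by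
    intro p
    have hex : ∃ q : Om × Om, (j q).1 = (j p).1 := ⟨p, rfl⟩
    have h1 : hex.choose = p := j.injective (Subtype.ext hex.choose_spec)
    have h2 : T (j p).1 = t hex.choose.1 hex.choose.2 := dif_pos hex
    rw [h2, h1]
  obtain ⟨g, hg⟩ := hreal T
  obtain ⟨a, ha⟩ := hcov ⟨g.1, g.2⟩
  obtain ⟨z, hz⟩ := hRπ a ha
  obtain ⟨w, hw⟩ := ht a z
  apply hw
  have h1 := hg (j (a, w)).1 (j (a, w)).2
  rw [hT] at h1
  have h2 : (⟨π a z, (π a z).continuous⟩ : Cp K) = g := by
    apply Subtype.ext
    simp only [hz]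
    rfl
  rw [h2]
  exact h1

end Pool.Agent.CpImages
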