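import Pool.Agent.CpImages.Frag

/-!
# Representable families of continuous functions
-/

set_option autoImplicit false

open Topology Filter

namespace Pool.Agent.CpImages

variable {K : Type} [TopologicalSpace K] [CompactSpace K]

/-- A set of continuous functions which is covered by a Polish space of parameters on which all the
evaluations are fragmented. -/
def Rep (R : Set C(K, ℝ)) : Prop :=
  ∃ (Q : Type) (_ : TopologicalSpace Q) (_ : PolishSpace Q) (π : Q → C(K, ℝ)),
    (∀ k, Frag fun z => π z k) ∧ R ⊆ Set.range π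

omit [CompactSpace K] in
theorem Rep.mono {R R' : Set C(K, ℝ)} (h : Rep R) (hR : R' ⊆ R) : Rep R' := by
  obtain ⟨Q, t, p, π, h1, h2⟩ := h
  exact ⟨Q, t, p, π, h1, hR.trans h2⟩

omit [CompactSpace K] in
theorem Rep.iUnion {ι : Type} [Countable ι] {R : ι → Set C(K, ℝ)} (h : ∀ i, Rep (R i)) :
    Rep (⋃ i, R i) := by
  choose Q t p π h1 h2 using h
  have := p
  refine ⟨Σ i, Q i, inferInstance, inferInstance, fun z => π z.1 z.2, ?_, ?_⟩
  · intro k
    exact Frag.sigma fun i => h1 i k
  · refine Set.iUnion_subset fun i g hg => ?_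
    obtain ⟨z, rfl⟩ := h2 i hg
    exact ⟨⟨i, z⟩, rfl⟩

omit [CompactSpace K] in
theorem Rep.union {R R' : Set C(K, ℝ)} (h : Rep R) (h' : Rep R') : Rep (R ∪ R') := by
  have := Rep.iUnion (ι := Bool) (R := fun b => cond b R R') (by
    intro b; cases b
    · exact h'
    · exact h)
  rw [Set.union_eq_iUnion]
  exact this

omit [CompactSpace K] in
theorem Rep.image2 {R R' : Set C(K, ℝ)} (h : Rep R) (h' : Rep R')
    (F : C(K, ℝ) → C(K, ℝ) → C(K, ℝ)) (G : ℝ → ℝ → ℝ)
    (hG : Continuous fun p : ℝ × ℝ => G p.1 p.2) (hFG : ∀ f g k, F f g k = G (f k) (g k)) :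
    Rep (Set.image2 F R R') := by
  obtain ⟨Q, t, p, π, h1, h2⟩ := h
  obtain ⟨Q', t', p', π', h1', h2'⟩ := h'
  refine ⟨Q × Q', inferInstance, inferInstance, fun z => F (π z.1) (π' z.2), ?_, ?_⟩
  · intro k
    simp only [hFG]
    exact Frag.map₂ ((h1 k).comp continuous_fst) ((h1' k).comp continuous_snd) G hG
  · rintro _ ⟨f, hf, g, hg, rfl⟩
    obtain ⟨z, rfl⟩ := h2 hf
    obtain ⟨z', rfl⟩ := h2' hg
    exact ⟨(z, z'), rfl⟩

/-- truncation at level `c` -/
noncomputable def clampR (c x : ℝ) : ℝ := max (-c) (min c x)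

theorem clampR_continuous (c : ℝ) : Continuous (clampR c) := by
  unfold clampR; fun_prop

theorem abs_clampR_le (c : ℝ) (hc : 0 ≤ c) (x : ℝ) : |clampR c x| ≤ c := by
  unfold clampR
  rw [abs_le]
  exact ⟨le_max_left _ _, max_le (by linarith) (min_le_left _ _)⟩

theorem clampR_eq (c x : ℝ) (h : |x| ≤ c) : clampR c x = x := by
  unfold clampR
  rw [abs_le] at h
  rw [min_eq_right h.2, max_eq_right h.1]

/-- the truncated partial limits -/
noncomputable def partialLim (g : ℕ → C(K, ℝ)) : ℕ → C(K, ℝ)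
  | 0 => g 0
  | n + 1 => partialLim g n +
      (⟨clampR ((1 / 2) ^ n), clampR_continuous _⟩ : C(ℝ, ℝ)).comp (g (n + 1) - partialLim g n)

omit [CompactSpace K] in
theorem partialLim_succ_apply (g : ℕ → C(K, ℝ)) (n : ℕ) (k : K) :
    partialLim g (n + 1) k = partialLim g n k +
      clampR ((1 / 2) ^ n) (g (n + 1) k - partialLim g n k) := rfl

theorem partialLim_dist (g : ℕ → C(K, ℝ)) (n : ℕ) :
    dist (partialLim g n) (partialLim g (n + 1)) ≤ 1 * (1 / 2) ^ n := by
  rw [ContinuousMap.dist_le (by positivity)]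
  intro k
  rw [partialLim_succ_apply, Real.dist_eq]
  have := abs_clampR_le ((1 / 2) ^ n) (by positivity) (g (n + 1) k - partialLim g n k)
  rw [show partialLim g n k - (partialLim g n k + clampR ((1 / 2) ^ n)
    (g (n + 1) k - partialLim g n k)) = - clampR ((1 / 2) ^ n)
    (g (n + 1) k - partialLim g n k) by ring, abs_neg, one_mul]
  exact this

theorem exists_partialLim_lim (g : ℕ → C(K, ℝ)) :
    ∃ f : C(K, ℝ), Tendsto (partialLim g) atTop (𝓝 f) :=
  cauchySeq_tendsto_of_complete
    (cauchySeq_of_le_geometric (1 / 2) 1 (by norm_num) (partialLim_dist g))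

/-- the truncated limit -/
noncomputable def truncLim (g : ℕ → C(K, ℝ)) : C(K, ℝ) := (exists_partialLim_lim g).choose

theorem truncLim_dist (g : ℕ → C(K, ℝ)) (n : ℕ) :
    dist (partialLim g n) (truncLim g) ≤ 2 * (1 / 2) ^ n := by
  have := dist_le_of_le_geometric_of_tendsto (1 / 2) 1 (by norm_num) (partialLim_dist g)
    (exists_partialLim_lim g).choose_spec n
  calc dist (partialLim g n) (truncLim g) ≤ 1 * (1 / 2) ^ n / (1 - 1 / 2) := this
    _ = _ := by ring

theorem truncLim_eq (g : ℕ → C(K, ℝ)) (f : C(K, ℝ)) (h : ∀ n, dist (g n) f ≤ (1 / 2) ^ n / 2) :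
    truncLim g = f := by
  have h1 : ∀ n, partialLim g n = g n := by
    intro n
    induction n with
    | zero => rfl
    | succ n ih =>
      ext k
      rw [partialLim_succ_apply, ih, clampR_eq]
      · ring
      · have e1 : |g (n + 1) k - f k| ≤ (1 / 2) ^ (n + 1) / 2 := by
          rw [← Real.dist_eq]
          exact (ContinuousMap.dist_apply_le_dist k).trans (h (n + 1))
        have e2 : |g n k - f k| ≤ (1 / 2) ^ n / 2 := by
          rw [← Real.dist_eq]
          exact (ContinuousMap.dist_apply_le_dist k).trans (h n)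
        have e3 : (0 : ℝ) < (1 / 2) ^ n := by positivity
        calc |g (n + 1) k - g n k| = |(g (n + 1) k - f k) - (g n k - f k)| := by ring_nf
          _ ≤ |g (n + 1) k - f k| + |g n k - f k| := abs_sub _ _
          _ ≤ (1 / 2) ^ (n + 1) / 2 + (1 / 2) ^ n / 2 := add_le_add e1 e2
          _ ≤ (1 / 2) ^ n := by rw [pow_succ]; linarith
  have h2 : Tendsto (partialLim g) atTop (𝓝 f) := by
    rw [tendsto_iff_dist_tendsto_zero]
    have h3 : Tendsto (fun n : ℕ => ((1 / 2 : ℝ) ^ n) / 2) atTop (𝓝 0) := by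
      have : Tendsto (fun n : ℕ => ((1 / 2 : ℝ) ^ n) / 2) atTop (𝓝 (0 / 2)) :=
        (tendsto_pow_atTop_nhds_zero_of_lt_one (by norm_num) (by norm_num)).div_const 2
      rwa [zero_div] at this
    have h4 : ∀ n, dist (partialLim g n) f ≤ (1 / 2) ^ n / 2 := by
      intro n
      rw [h1 n]
      exact h n
    exact squeeze_zero (fun _ => dist_nonneg) h4 h3
  exact tendsto_nhds_unique (exists_partialLim_lim g).choose_spec h2

theorem Rep.closure {R : Set C(K, ℝ)} (h : Rep R) : Rep (closure R) := by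
  obtain ⟨Q, t, p, π, h1, h2⟩ := h
  refine ⟨ℕ → Q, inferInstance, inferInstance, fun z => truncLim fun n => π (z n), ?_, ?_⟩
  · intro k
    have hp : ∀ n, Frag fun z : ℕ → Q => partialLim (fun n => π (z n)) n k := by
      intro n
      induction n with
      | zero => exact (h1 k).comp (continuous_apply 0)
      | succ n ih =>
        simp only [partialLim_succ_apply]
        exact Frag.map₂ ih ((h1 k).comp (continuous_apply (n + 1)))
          (fun x y => x + clampR ((1 / 2) ^ n) (y - x))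
          (continuous_fst.add ((clampR_continuous _).comp (continuous_snd.sub continuous_fst)))
    apply Frag.of_uniform
    intro η hη
    obtain ⟨n, hn⟩ := exists_pow_lt_of_lt_one (show (0 : ℝ) < η / 2 by positivity)
      (show (1 / 2 : ℝ) < 1 by norm_num)
    refine ⟨_, hp n, fun z => ?_⟩
    rw [← Real.dist_eq, dist_comm]
    calc _ ≤ dist (partialLim (fun n => π (z n)) n) (truncLim fun n => π (z n)) :=
          ContinuousMap.dist_apply_le_dist k
      _ ≤ 2 * (1 / 2) ^ n := truncLim_dist _ n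
      _ ≤ η := by linarith
  · intro f hf
    have : ∀ n : ℕ, ∃ z : Q, dist (π z) f ≤ (1 / 2) ^ n / 2 := by
      intro n
      obtain ⟨g, hg, hgf⟩ := Metric.mem_closure_iff.mp hf ((1 / 2) ^ n / 2) (by positivity)
      obtain ⟨z, rfl⟩ := h2 hg
      exact ⟨z, by rw [dist_comm]; exact hgf.le⟩
    choose z hz using this
    exact ⟨z, truncLim_eq _ f hz⟩

/-- the stages of the generated algebra -/
def stage (R : Set C(K, ℝ)) : ℕ → Set C(K, ℝ)
  | 0 => R ∪ Set.range (algebraMap ℝ C(K, ℝ))
  | n + 1 => stage R n ∪ (Set.image2 (· + ·) (stage R n) (stage R n) ∪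
      Set.image2 (· * ·) (stage R n) (stage R n))

omit [CompactSpace K] in
theorem rep_stage {R : Set C(K, ℝ)} (h : Rep R) (n : ℕ) : Rep (stage R n) := by
  induction n with
  | zero =>
    refine h.union ⟨ℝ, inferInstance, inferInstance, algebraMap ℝ C(K, ℝ), ?_, le_rfl⟩
    intro k
    exact Frag.of_continuous continuous_id
  | succ n ih =>
    refine ih.union ((ih.image2 ih _ (fun x y => x + y) (continuous_fst.add continuous_snd)
      fun f g k => rfl).union (ih.image2 ih _ (fun x y => x * y)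
      (continuous_fst.mul continuous_snd) fun f g k => rfl))

omit [CompactSpace K] in
theorem stage_mono (R : Set C(K, ℝ)) {m n : ℕ} (h : m ≤ n) : stage R m ⊆ stage R n := by
  induction n, h using Nat.le_induction with
  | base => exact le_rfl
  | succ n _ ih => exact ih.trans Set.subset_union_left

omit [CompactSpace K] in
theorem Rep.adjoin {R : Set C(K, ℝ)} (h : Rep R) :
    Rep (Algebra.adjoin ℝ R : Set C(K, ℝ)) := by
  refine (Rep.iUnion (rep_stage h)).mono ?_
  intro f hf
  rw [SetLike.mem_coe] at hf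
  induction hf using Algebra.adjoin_induction with
  | mem x hx => exact Set.mem_iUnion.mpr ⟨0, Or.inl hx⟩
  | algebraMap r => exact Set.mem_iUnion.mpr ⟨0, Or.inr ⟨r, rfl⟩⟩
  | add x y _ _ hx hy =>
    obtain ⟨m, hm⟩ := Set.mem_iUnion.mp hx
    obtain ⟨n, hn⟩ := Set.mem_iUnion.mp hy
    exact Set.mem_iUnion.mpr ⟨max m n + 1, Or.inr (Or.inl
      ⟨x, stage_mono R (le_max_left _ _) hm, y, stage_mono R (le_max_right _ _) hn, rfl⟩)⟩
  | mul x y _ _ hx hy =>
    obtain ⟨m, hm⟩ := Set.mem_iUnion.mp hx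
    obtain ⟨n, hn⟩ := Set.mem_iUnion.mp hy
    exact Set.mem_iUnion.mpr ⟨max m n + 1, Or.inr (Or.inr
      ⟨x, stage_mono R (le_max_left _ _) hm, y, stage_mono R (le_max_right _ _) hn, rfl⟩)⟩

end Pool.Agent.CpImages
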